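import Mathlib

/-!
# Unique solutions of additive systems (MP_555c3f_al)

Every coordinate of the unique solution of a system `S ⊆ W_n` is a rational number whose reduced
numerator and denominator are at most `2 ^ (n - 1)` in absolute value.

Choose an equation `x_{i₀} = 1` of `S` and replace the other equations `x_i = 1` by
`x_i - x_{i₀} = 0`.  All rows other than the row of `x_{i₀} = 1` then have the form
`(e_i) + (e_j - e_k)`, a sum of two rows with at most one entry `1` and at most one entry `-1`.
A square matrix all of whose rows are of the latter kind has determinant `0, 1, -1`, so by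
multilinearity the determinants in Cramer's rule are sums of at most `2 ^ (n - 1)` terms
from `{0, 1, -1}`.
-/

set_option autoImplicit false

namespace Pool.Agent.Results.MP_555c3f_al.PowerBound

/-- An equation of `W_n`: `one i` stands for `x_i = 1`, `add i j k` for `x_i + x_j = x_k`. -/
inductive Eqn (n : ℕ)
  | one (i : Fin n) : Eqn n
  | add (i j k : Fin n) : Eqn n

/-- The tuple `x` satisfies the equation. -/
def Eqn.Holds {n : ℕ} (x : Fin n → ℂ) : Eqn n → Prop
  | .one i => x i = 1
  | .add i j k => x i + x j = x k

/-- `x` is the only complex solution of the system `S`. -/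
def IsUniqueSolution {n : ℕ} (S : Set (Eqn n)) (x : Fin n → ℂ) : Prop :=
  (∀ e ∈ S, e.Holds x) ∧ ∀ y : Fin n → ℂ, (∀ e ∈ S, e.Holds y) → y = x

/-- At most one entry `1`, at most one entry `-1`, all other entries `0`. -/
def IsNet {ι : Type} (v : ι → ℤ) : Prop :=
  (∀ j, v j = 0 ∨ v j = 1 ∨ v j = -1) ∧
    (∀ j k, v j = 1 → v k = 1 → j = k) ∧ (∀ j k, v j = -1 → v k = -1 → j = k)

theorem det_net (m : ℕ) : ∀ A : Matrix (Fin m) (Fin m) ℤ, (∀ r, IsNet (A r)) → |A.det| ≤ 1 := by
  induction m with
  | zero => intro A _; simp
  | succ m ih =>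
    intro A hA
    by_cases h : ∃ r, (∀ j, A r j ≠ 1) ∨ (∀ j, A r j ≠ -1)
    · obtain ⟨r, hr⟩ := h
      have hc : ∃ c, ∀ j, j ≠ c → A r j = 0 := by
        by_cases h0 : ∃ c, A r c ≠ 0
        · obtain ⟨c, hc⟩ := h0
          refine ⟨c, fun j hj => ?_⟩
          obtain ⟨h1, h2, h3⟩ := hA r
          by_contra hne
          rcases hr with hr | hr
          · have e1 : A r j = -1 := by
              rcases h1 j with h | h | h
              · exact absurd h hne
              · exact absurd h (hr j)
              · exact h
            have e2 : A r c = -1 := by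
              rcases h1 c with h | h | h
              · exact absurd h hc
              · exact absurd h (hr c)
              · exact h
            exact hj (h3 j c e1 e2)
          · have e1 : A r j = 1 := by
              rcases h1 j with h | h | h
              · exact absurd h hne
              · exact h
              · exact absurd h (hr j)
            have e2 : A r c = 1 := by
              rcases h1 c with h | h | h
              · exact absurd h hc
              · exact h
              · exact absurd h (hr c)
            exact hj (h2 j c e1 e2)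
        · push Not at h0
          exact ⟨0, fun j _ => h0 j⟩
      obtain ⟨c, hc⟩ := hc
      rw [Matrix.det_succ_row A r, Finset.sum_eq_single c]
      · have hm : |(A.submatrix r.succAbove c.succAbove).det| ≤ 1 := by
          apply ih
          intro s
          obtain ⟨h1, h2, h3⟩ := hA (r.succAbove s)
          refine ⟨fun j => h1 _, fun j k hj hk => ?_, fun j k hj hk => ?_⟩
          · exact Fin.succAbove_right_injective (h2 _ _ hj hk)
          · exact Fin.succAbove_right_injective (h3 _ _ hj hk)
        have hrc : |A r c| ≤ 1 := by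
          rcases (hA r).1 c with h | h | h <;> rw [h] <;> norm_num
        rw [abs_mul, abs_mul, abs_pow, abs_neg, abs_one, one_pow, one_mul]
        calc |A r c| * |(A.submatrix r.succAbove c.succAbove).det| ≤ 1 * 1 :=
              mul_le_mul hrc hm (abs_nonneg _) zero_le_one
          _ = 1 := by norm_num
      · intro j _ hj
        rw [hc j hj]; simp
      · intro hn; exact absurd (Finset.mem_univ c) hn
    · push Not at h
      have hz : A.det = 0 := by
        rw [← Matrix.exists_mulVec_eq_zero_iff]
        refine ⟨fun _ => 1, ?_, ?_⟩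
        · intro h0
          have := congrFun h0 0
          simp at this
        · funext r
          obtain ⟨⟨a, ha⟩, ⟨b, hb⟩⟩ := h r
          have hab : a ≠ b := by
            intro hab; rw [hab, hb] at ha; norm_num at ha
          have : (A.mulVec fun _ => 1) r = ∑ j, A r j := by
            simp [Matrix.mulVec, dotProduct]
          rw [this, Finset.sum_eq_add a b hab, ha, hb]
          · simp
          · intro c _ hc
            rcases (hA r).1 c with h | h | h
            · exact h
            · exact absurd ((hA r).2.1 c a h ha) hc.1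
            · exact absurd ((hA r).2.2 c b h hb) hc.2
          · intro hn; exact absurd (Finset.mem_univ a) hn
          · intro hn; exact absurd (Finset.mem_univ b) hn
      rw [hz]; simp

theorem det_bound {n : ℕ} (u v : Fin n → Fin n → ℤ) (hu : ∀ r, IsNet (u r))
    (hv : ∀ r, IsNet (v r)) (r0 : Fin n) (h0 : v r0 = 0) :
    |(Matrix.of (u + v)).det| ≤ 2 ^ (n - 1) := by
  have hexp : (Matrix.of (u + v)).det
      = ∑ s : Finset (Fin n), (Matrix.of (s.piecewise u v)).det := by
    have := (Matrix.detRowAlternating (n := Fin n) (R := ℤ)).toMultilinearMap.map_add_univ u v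
    exact this
  have hvan : ∀ s : Finset (Fin n), r0 ∉ s → (Matrix.of (s.piecewise u v)).det = 0 := by
    intro s hs
    apply Matrix.det_eq_zero_of_row_eq_zero r0
    intro j
    simp [Finset.piecewise_eq_of_notMem _ _ _ hs, h0]
  rw [hexp, ← Finset.sum_filter_add_sum_filter_not Finset.univ (fun s => r0 ∈ s)]
  rw [Finset.sum_eq_zero (s := Finset.filter (fun s => ¬ r0 ∈ s) Finset.univ)
    (fun s hs => hvan s (by simpa using hs)), add_zero]
  have hcard : (Finset.filter (fun s : Finset (Fin n) => r0 ∈ s) Finset.univ).card
      ≤ 2 ^ (n - 1) := by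
    have : ((Finset.univ.erase r0).powerset : Finset (Finset (Fin n))).card = 2 ^ (n - 1) := by
      rw [Finset.card_powerset, Finset.card_erase_of_mem (Finset.mem_univ _), Finset.card_univ,
        Fintype.card_fin]
    rw [← this]
    apply Finset.card_le_card_of_injOn (fun s => s.erase r0)
    · intro s _
      simp only [Finset.coe_powerset, Set.mem_preimage, Set.mem_powerset_iff]
      intro x hx
      simp only [Finset.coe_erase, Set.mem_sdiff, Finset.mem_coe, Set.mem_singleton_iff] at hx ⊢
      exact ⟨Finset.mem_univ _, hx.2⟩
    · intro s hs t ht hst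
      have hs' : r0 ∈ s := by simpa using hs
      have ht' : r0 ∈ t := by simpa using ht
      have hst' : s.erase r0 = t.erase r0 := hst
      rw [← Finset.insert_erase hs', ← Finset.insert_erase ht', hst']
  calc |∑ s ∈ Finset.filter (fun s : Finset (Fin n) => r0 ∈ s) Finset.univ,
          (Matrix.of (s.piecewise u v)).det|
      ≤ ∑ s ∈ Finset.filter (fun s : Finset (Fin n) => r0 ∈ s) Finset.univ,
          |(Matrix.of (s.piecewise u v)).det| := Finset.abs_sum_le_sum_abs _ _
    _ ≤ ∑ s ∈ Finset.filter (fun s : Finset (Fin n) => r0 ∈ s) Finset.univ, (1 : ℤ) := by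
        apply Finset.sum_le_sum
        intro s _
        apply det_net
        intro r
        by_cases hr : r ∈ s
        · have : (Matrix.of (s.piecewise u v)) r = u r := by
            funext j; simp [Finset.piecewise_eq_of_mem _ _ _ hr]
          rw [this]; exact hu r
        · have : (Matrix.of (s.piecewise u v)) r = v r := by
            funext j; simp [Finset.piecewise_eq_of_notMem _ _ _ hr]
          rw [this]; exact hv r
    _ = ((Finset.filter (fun s : Finset (Fin n) => r0 ∈ s) Finset.univ).card : ℤ) := by simp
    _ ≤ 2 ^ (n - 1) := by exact_mod_cast hcard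

theorem isNet_zero {ι : Type} : IsNet (0 : ι → ℤ) :=
  ⟨fun _ => Or.inl rfl, fun _ _ h => by simp at h, fun _ _ h => by simp at h⟩

theorem isNet_single {n : ℕ} (i : Fin n) : IsNet (Pi.single i 1 : Fin n → ℤ) := by
  refine ⟨fun j => ?_, fun j k hj hk => ?_, fun j k hj hk => ?_⟩
  · by_cases h : j = i
    · subst h; simp
    · simp [h]
  · by_cases h : j = i
    · by_cases h' : k = i
      · rw [h, h']
      · simp [h'] at hk
    · simp [h] at hj
  · by_cases h : j = i
    · subst h; simp at hj
    · simp [h] at hj

theorem isNet_sub {n : ℕ} (i k : Fin n) :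
    IsNet (Pi.single i 1 - Pi.single k 1 : Fin n → ℤ) := by
  by_cases hik : i = k
  · subst hik; simpa using isNet_zero
  refine ⟨fun j => ?_, fun j l hj hl => ?_, fun j l hj hl => ?_⟩
  · by_cases h : j = i
    · subst h; simp [hik]
    · by_cases h' : j = k
      · subst h'; simp [h]
      · simp [h, h']
  · have key : ∀ j, (Pi.single i 1 - Pi.single k 1 : Fin n → ℤ) j = 1 → j = i := by
      intro j hj
      by_contra h
      by_cases h' : j = k
      · subst h'; simp [h] at hj
      · simp [h, h'] at hj
    rw [key j hj, key l hl]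
  · have key : ∀ j, (Pi.single i 1 - Pi.single k 1 : Fin n → ℤ) j = -1 → j = k := by
      intro j hj
      by_contra h
      by_cases h' : j = i
      · subst h'; simp [h] at hj
      · simp [h, h'] at hj
    rw [key j hj, key l hl]

/-- The integer vector `v` seen over `ℂ`. -/
def toC {n : ℕ} (v : Fin n → ℤ) : Fin n → ℂ := fun j => (v j : ℂ)

/-- A homogeneous row: a sum of two net rows, orthogonal to `x`. -/
def Hom {n : ℕ} (x : Fin n → ℂ) (w : Fin n → ℂ) : Prop :=
  ∃ u v : Fin n → ℤ, IsNet u ∧ IsNet v ∧ w = toC (u + v) ∧ ∑ j, w j * x j = 0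

theorem toC_single {n : ℕ} (i : Fin n) : toC (Pi.single i 1 : Fin n → ℤ) = Pi.single i 1 := by
  funext j
  by_cases h : j = i
  · subst h; simp [toC]
  · simp [toC, h]

theorem result {n : ℕ} (S : Set (Eqn n)) (x : Fin n → ℂ) (hx : IsUniqueSolution S x)
    (k : Fin n) :
    ∃ r : ℚ, x k = (r : ℂ) ∧ |r.num| ≤ 2 ^ (n - 1) ∧ (r.den : ℤ) ≤ 2 ^ (n - 1) := by
  classical
  obtain ⟨hsol, huniq⟩ := hx
  by_cases hone : ∃ i0, Eqn.one i0 ∈ S
  swap
  · -- no inhomogeneous equation
    have h0 : (0 : Fin n → ℂ) = x := by
      apply huniq
      intro e he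
      cases e with
      | one i => exact absurd ⟨i, he⟩ hone
      | add i j k => simp [Eqn.Holds]
    refine ⟨0, ?_, ?_, ?_⟩
    · rw [← h0]; simp
    · simp
    · simp; exact one_le_pow₀ (by norm_num)
  obtain ⟨i0, hi0⟩ := hone
  have hx0 : x i0 = 1 := hsol _ hi0
  -- the set of rows
  let T : Set (Fin n → ℂ) := {w | Hom x w ∨ w = Pi.single i0 1}
  have hspan : Submodule.span ℂ T = ⊤ := by
    by_contra hne
    obtain ⟨f, hf0, hf⟩ := Submodule.exists_le_ker_of_lt_top _ (lt_top_iff_ne_top.mpr hne)
    -- the functional `f` is the dot product with `y`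
    let y : Fin n → ℂ := fun j => f (Pi.single j 1)
    have hfy : ∀ w : Fin n → ℂ, f w = ∑ j, w j * y j := by
      intro w
      have : w = ∑ j, w j • (Pi.single j (1 : ℂ) : Fin n → ℂ) := by
        funext l
        simp [Finset.sum_apply, Pi.single_apply]
      conv_lhs => rw [this]
      simp [y, smul_eq_mul]
    have hT : ∀ w ∈ T, f w = 0 := by
      intro w hw
      have : w ∈ LinearMap.ker f := hf (Submodule.subset_span hw)
      exact this
    have hy0 : y i0 = 0 := hT _ (Or.inr rfl)
    have hrow : ∀ (u v : Fin n → ℤ), IsNet u → IsNet v → ∑ j, toC (u + v) j * x j = 0 →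
        ∑ j, toC (u + v) j * y j = 0 := by
      intro u v hu hv h
      rw [← hfy]
      exact hT _ (Or.inl ⟨u, v, hu, hv, rfl, h⟩)
    have hy : (x + y) = x := by
      apply huniq
      intro e he
      have hex := hsol e he
      cases e with
      | one i =>
        have hxi : x i = 1 := hex
        have := hrow 0 (Pi.single i 1 - Pi.single i0 1) isNet_zero (isNet_sub i i0) (by
          simp [toC, sub_mul, Finset.sum_sub_distrib, Pi.single_apply, hxi, hx0])
        simp [toC, sub_mul, Finset.sum_sub_distrib, Pi.single_apply, hy0] at this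
        simp [Eqn.Holds, hxi, this]
      | add i j l =>
        have hxi : x i + x j = x l := hex
        have := hrow (Pi.single i 1) (Pi.single j 1 - Pi.single l 1) (isNet_single i)
          (isNet_sub j l) (by
          simp [toC, add_mul, sub_mul, Finset.sum_add_distrib, Finset.sum_sub_distrib,
            Pi.single_apply]
          linear_combination hxi)
        simp [toC, add_mul, sub_mul, Finset.sum_add_distrib, Finset.sum_sub_distrib,
          Pi.single_apply] at this
        simp only [Eqn.Holds, Pi.add_apply]
        linear_combination hxi + this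
    have hy' : y = 0 := by simpa using hy
    apply hf0
    refine LinearMap.ext fun w => ?_
    rw [hfy, hy']
    simp
  -- a basis consisting of rows
  obtain ⟨b, hbT, hbspan, hbli⟩ := exists_linearIndependent ℂ T
  have hbtop : ⊤ ≤ Submodule.span ℂ (Set.range (Subtype.val : b → Fin n → ℂ)) := by
    rw [Subtype.range_val, hbspan, hspan]
  let B : Module.Basis b ℂ (Fin n → ℂ) := Module.Basis.mk hbli hbtop
  have : Fintype b := FiniteDimensional.fintypeBasisIndex B
  have hcard : Fintype.card b = n := by
    rw [← Module.finrank_eq_card_basis B]; simp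
  let E : Fin n ≃ b := (Fintype.equivFinOfCardEq hcard).symm
  let M : Matrix (Fin n) (Fin n) ℂ := Matrix.of fun r => (E r : Fin n → ℂ)
  have hMli : LinearIndependent ℂ (fun r => M r) := by
    have : (fun r => M r) = (Subtype.val : b → Fin n → ℂ) ∘ E := rfl
    rw [this]
    exact hbli.comp _ E.injective
  have hMdet : M.det ≠ 0 := by
    have h1 : IsUnit M := Matrix.linearIndependent_rows_iff_isUnit.mp hMli
    exact ((Matrix.isUnit_iff_isUnit_det M).mp h1).ne_zero
  have hMT : ∀ r, M r ∈ T := fun r => hbT (E r).2
  -- exactly one row is `e_{i0}`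
  have hex : ∃ r0, M r0 = Pi.single i0 1 := by
    by_contra hno
    push Not at hno
    have hzero : M.mulVec x = 0 := by
      funext r
      rcases hMT r with h | h
      · obtain ⟨u, v, _, _, _, h0⟩ := h
        simpa [Matrix.mulVec, dotProduct] using h0
      · exact absurd h (hno r)
    have hx00 : x = 0 := Matrix.eq_zero_of_mulVec_eq_zero hMdet hzero
    rw [hx00] at hx0
    simp at hx0
  obtain ⟨r0, hr0⟩ := hex
  have hother : ∀ r, r ≠ r0 → Hom x (M r) := by
    intro r hr
    rcases hMT r with h | h
    · exact h
    · exfalso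
      apply hr
      apply hMli.injective
      simp only [h, hr0]
  have hMx : M.mulVec x = Pi.single r0 1 := by
    funext r
    by_cases hr : r = r0
    · subst hr
      simp [Matrix.mulVec, dotProduct, hr0, Pi.single_apply, hx0]
    · obtain ⟨u, v, _, _, _, h0⟩ := hother r hr
      simpa [Matrix.mulVec, dotProduct, hr] using h0
  -- integer rows
  choose! u v hu hv huv _ using hother
  let u' : Fin n → (Fin n → ℤ) → (Fin n → ℤ) := fun r w => if r = r0 then w else u r
  let v' : Fin n → Fin n → ℤ := fun r => if r = r0 then 0 else v r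
  let D : Fin n → ℤ := fun l => (Matrix.of ((fun r => u' r (Pi.single l 1)) + v')).det
  have hD : ∀ l, |D l| ≤ 2 ^ (n - 1) := by
    intro l
    apply det_bound _ _ _ _ r0
    · simp [v']
    · intro r
      by_cases hr : r = r0
      · simp only [u', hr, if_true]; exact isNet_single l
      · simp only [u', hr, if_false]; exact hu r hr
    · intro r
      by_cases hr : r = r0
      · simp only [v', hr, if_true]; exact isNet_zero
      · simp only [v', hr, if_false]; exact hv r hr
  have hDM : ∀ l, ((D l : ℤ) : ℂ) = (M.updateRow r0 (Pi.single l 1)).det := by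
    intro l
    have hmat : M.updateRow r0 (Pi.single l 1)
        = (Int.castRingHom ℂ).mapMatrix (Matrix.of ((fun r => u' r (Pi.single l 1)) + v')) := by
      ext r j
      by_cases hr : r = r0
      · subst hr
        simp [u', v', Pi.single_apply]
      · rw [Matrix.updateRow_ne hr]
        have := congrFun (huv r hr) j
        simp only [toC] at this
        simp [u', v', hr, this]
    rw [hmat, ← RingHom.map_det]
    rfl
  have hadj : ∀ l, M.det * x l = ((D l : ℤ) : ℂ) := by
    intro l
    have h1 : (M.adjugate * M).mulVec x = M.det • x := by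
      rw [Matrix.adjugate_mul, Matrix.smul_mulVec, Matrix.one_mulVec]
    have h2 := congrFun h1 l
    rw [← Matrix.mulVec_mulVec, hMx] at h2
    rw [hDM l, ← Matrix.adjugate_apply]
    have h3 : (M.adjugate.mulVec (Pi.single r0 1)) l = M.adjugate l r0 := by
      simp [Matrix.mulVec, dotProduct, Pi.single_apply]
    rw [h3] at h2
    rw [h2]
    simp
  have hDi0 : ((D i0 : ℤ) : ℂ) = M.det := by
    rw [← hadj i0, hx0, mul_one]
  have hDne : D i0 ≠ 0 := by
    intro h
    apply hMdet
    rw [← hDi0, h]; simp
  refine ⟨(D k : ℚ) / (D i0 : ℚ), ?_, ?_, ?_⟩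
  · have := hadj k
    rw [← hDi0] at this
    have hne : ((D i0 : ℤ) : ℂ) ≠ 0 := by exact_mod_cast hDne
    push_cast
    field_simp
    linear_combination this
  · by_cases hk : D k = 0
    · rw [hk]; simp
    · have hdvd : ((D k : ℚ) / (D i0 : ℚ)).num ∣ D k := by
        rw [← Rat.divInt_eq_div]
        exact Rat.num_dvd _ hDne
      exact le_trans (Int.le_of_dvd (abs_pos.mpr hk) ((abs_dvd_abs _ _).mpr hdvd)) (hD k)
  · have hdvd : (((D k : ℚ) / (D i0 : ℚ)).den : ℤ) ∣ D i0 := by
      rw [← Rat.divInt_eq_div]
      exact Rat.den_dvd _ _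
    exact le_trans (Int.le_of_dvd (abs_pos.mpr hDne) ((dvd_abs _ _).mpr hdvd)) (hD i0)

end Pool.Agent.Results.MP_555c3f_al.PowerBound
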